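import Pool.Agent.R317.Mx

set_option autoImplicit false

/-!
# Periods of the max-type recurrence

For every `k ≥ 5` the recurrence `x_{n+k} = max(x_{n+k-1}, …, x_{n+1}, 0) - x_n` has a periodic
solution whose least period is not in the conjectured set.
-/

open Pool.Agent.R317.Mx

namespace Pool.Agent.Results.MP_06047d_an.EveryK

/-- `Per k` (`Pool.Agent.R317.Mx.Per`) is the set of the least periods of the periodic real solutions -/
theorem result (k : ℕ) (hk : 5 ≤ k) :
    ¬ (Per k ⊆ ({1, if Even k then 1 else 2, 2 * k, 3 * k - 1} : Set ℕ) ∪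
      {N | ∃ a b : ℕ, 1 ≤ a ∧ 1 ≤ b ∧ Nat.gcd a b = 1 ∧
        N = (3 * k - 2) * a + (3 * k - 1) * b}) := by
  intro hsub
  rcases (by omega : k = 5 ∨ k = 6 ∨ 7 ≤ k) with rfl | rfl | hk7
  · rcases hsub mem5 with h | ⟨a, b, ha, hb, hab, h⟩
    · simp only [Set.mem_insert_iff, Set.mem_singleton_iff] at h
      revert h
      decide
    · have ha' : a ≤ 4 := by omega
      have hb' : b ≤ 4 := by omega
      interval_cases a <;> interval_cases b <;> simp_all
  · rcases hsub mem6 with h | ⟨a, b, ha, hb, hab, h⟩
    · simp only [Set.mem_insert_iff, Set.mem_singleton_iff] at h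
      revert h
      decide
    · omega
  · rcases hsub (mem7 k hk7) with h | ⟨a, b, ha, hb, hab, h⟩
    · simp only [Set.mem_insert_iff, Set.mem_singleton_iff] at h
      rcases h with h | h | h | h
      · omega
      · split_ifs at h <;> omega
      · omega
      · omega
    · have h1 : (3 * k - 2) * 1 ≤ (3 * k - 2) * a := Nat.mul_le_mul_left _ ha
      have h2 : (3 * k - 1) * 1 ≤ (3 * k - 1) * b := Nat.mul_le_mul_left _ hb
      omega

end Pool.Agent.Results.MP_06047d_an.EveryK
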